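import Pool.Agent.Q41.GT.Top

/-!
MP_0dd0d9_ag, Q1 for `N = 1`: the gonality of the moduli spaces `M_d^1[n]` of the rational maps of
degree `d` with a marked point of exact period `n` tends to infinity with `n`, and so does the gonality
of all their subvarieties of positive dimension, uniformly.

All definitions are in `Pool/Agent/Q41/GT/Mod.lean`; `ratP1 p q d : Option ℂ → Option ℂ` is the self-map
`p / q` of the projective line `Option ℂ = ℂ ∪ {none}`, `none = ∞` (`Pool/Agent/W277/UH/F1.lean`).

The space `V d n ℂ` is the set of the `x` in `ℂ ^ (2 d - 1)` such that `num d x`, of degree less than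
`d`, with the coefficients `x (inl i)`, and `den d x = X ^ d + … + x (inr 0) X + num d x (0)` are
coprime, and `∞` has the exact period `n` for the map `f = num d x / den d x` of degree `d`. So
`f(∞) = 0` and `f(0) = 1`.

Theorem. Let `d ≥ 2`.

(1) For `n ≥ 3` the space `V d n ℂ` is not empty, and every pair `(f, z)` of a map of degree `d` and a
point of exact period `n` is conjugate to `(num d x / den d x, ∞)` for exactly one `x` in `V d n ℂ`. So
`V d n ℂ` is `M_d^1[n]`. All irreducible components (given by the minimal primes `P` of the vanishing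
ideal; the function field is the field of fractions of the coordinate ring modulo `P`) have
dimension `2 d - 2`.

(2) For every `B` there is `n₀` such that for all `n ≥ n₀` and all irreducible components of
`V d n ℂ`, with function field `K`, the degree of `K` over `ℂ(t_1, …, t_w)` is larger than `B` for
every transcendence basis `t` of `K`: every dominant rational map from the component to projective space
of the same dimension `w = 2 d - 2` has degree larger than `B`.

(3) The same for all irreducible subsets `W` of `V d n ℂ` (with prime vanishing ideal `P`) of any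
dimension `w ≥ 1`, with the same `n₀`.
-/

set_option autoImplicit false

namespace Pool.Agent.Results.MP_0dd0d9_ag.MapsOfTheLine

open Polynomial
open Pool.Agent.Q41.GT
open Pool.Agent.W277.UH (ratP1)

/-- Every pair of a map of degree `d` and a point of exact period `n` is conjugate to
`(num d x / den d x, ∞)` for exactly one `x` in `V d n ℂ`. -/
def NormalForm (d n : ℕ) : Prop :=
  ∀ (p q : ℂ[X]) (z : Option ℂ), IsCoprime p q → max p.natDegree q.natDegree = d →
    Function.minimalPeriod (ratP1 p q d) z = n →
    ∃! x : Sg d → ℂ, x ∈ V d n ℂ ∧ Conj d p q z (num d x) (den d x) none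

/-- The varieties of dimension `w` with function field `K` have gonality larger than `B`: the degree
of `K` over the subfield generated by any transcendence basis `t` is larger than `B`. -/
def GonGT (K : Type) [Field K] [Algebra ℂ K] (w B : ℕ) : Prop :=
  ∀ t : Fin w → K, IsTranscendenceBasis ℂ t →
    B < Module.finrank (IntermediateField.adjoin ℂ (Set.range t)) K

/-- See the explanation at the beginning of the file. -/
theorem result (d : ℕ) (hd : 2 ≤ d) :
    (∀ n, 3 ≤ n → (V d n ℂ).Nonempty ∧ NormalForm d n ∧
      ∀ (P : Ideal (MvPolynomial (Sg d) ℂ)) [P.IsPrime],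
        P ∈ (MvPolynomial.vanishingIdeal ℂ (V d n ℂ)).minimalPrimes →
        Algebra.trdeg ℂ (FractionRing (MvPolynomial (Sg d) ℂ ⧸ P)) = (2 * d - 2 : ℕ)) ∧
    ∀ B : ℕ, ∃ n₀ : ℕ, ∀ n, n₀ ≤ n →
      (∀ (P : Ideal (MvPolynomial (Sg d) ℂ)) [P.IsPrime],
        P ∈ (MvPolynomial.vanishingIdeal ℂ (V d n ℂ)).minimalPrimes →
        GonGT (FractionRing (MvPolynomial (Sg d) ℂ ⧸ P)) (2 * d - 2) B) ∧
      ∀ (P : Ideal (MvPolynomial (Sg d) ℂ)) [P.IsPrime] (W : Set (Sg d → ℂ)), W ⊆ V d n ℂ →
        P = MvPolynomial.vanishingIdeal ℂ W → ∀ w : ℕ, 1 ≤ w →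
        GonGT (FractionRing (MvPolynomial (Sg d) ℂ ⧸ P)) w B :=
  top_gon d hd

end Pool.Agent.Results.MP_0dd0d9_ag.MapsOfTheLine
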